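import Pool.Agent.T9h80.WQ.P6d

/-!
# The exceptional divisor (piece P6)
-/

set_option autoImplicit false

namespace Pool.Agent.T9h80.WQ

open Pool.Agent.T9h29.WQ

universe u

variable {k : Type u} [Field k]

/-- `θ` is not a square -/
theorem theta_sq (a b : FF k) (h : a ^ 2 + b ^ 2 * RatFunc.X = 0) : a = 0 ∧ b = 0 := by
  by_cases hb : b = 0
  · refine ⟨?_, hb⟩
    rw [hb, zero_pow two_ne_zero, zero_mul, add_zero] at h
    exact pow_eq_zero_iff (two_ne_zero) |>.1 h
  · exfalso
    have hX : (RatFunc.X : FF k) ≠ 0 := RatFunc.X_ne_zero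
    have h1 : a ^ 2 = - (b ^ 2 * RatFunc.X) := eq_neg_of_add_eq_zero_left h
    have ha : a ≠ 0 := by
      rintro rfl
      rw [zero_pow two_ne_zero] at h1
      exact (neg_ne_zero.2 (mul_ne_zero (pow_ne_zero 2 hb) hX)) h1.symm
    have h2 := congrArg RatFunc.intDegree h1
    rw [RatFunc.intDegree_neg, pow_two, pow_two, RatFunc.intDegree_mul ha ha,
      RatFunc.intDegree_mul (mul_ne_zero hb hb) hX, RatFunc.intDegree_mul hb hb,
      RatFunc.intDegree_X] at h2
    omega

/-- `θ ^ 2` is transcendental -/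
theorem theta_trans (p : Polynomial k) (hp : p ≠ 0) :
    Polynomial.eval₂ (algebraMap k (FF k)) (RatFunc.X ^ 2) p ≠ 0 := by
  intro h
  have h1 : Polynomial.aeval ((RatFunc.X : FF k) ^ 2) p = 0 := h
  rw [← Polynomial.expand_aeval] at h1
  have h2 : Polynomial.aeval (RatFunc.X : FF k) (Polynomial.expand k 2 p) =
      algebraMap (Polynomial k) (FF k) (Polynomial.expand k 2 p) := by
    rw [← RatFunc.algebraMap_X, Polynomial.aeval_algebraMap_apply, Polynomial.aeval_X_left_apply]
  rw [h2] at h1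
  have h3 : Polynomial.expand k 2 p = 0 := by
    apply IsFractionRing.injective (Polynomial k) (FF k)
    rw [h1, map_zero]
  exact hp ((Polynomial.expand_eq_zero (by norm_num)).1 h3)

variable {σ : A k ≃ₐ[k] A k} {x y : A k}

theorem phi_toK (f : A k) (hf : σ f = f) :
    phi σ (toK σ f hf) = HahnSeries.ofPowerSeries ℤ (FF k) (Th k f) := phi_alg σ _

/-- the ring is discrete -/
theorem dvr_RR [CharP k 2] (h : Artin σ x y y (x ^ 4)) {p : FractionRing (invariants σ)}
    (hp0 : p ≠ 0) (hp : (phi σ p).order = 2) : IsDiscreteValuationRing (RR σ) := by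
  apply IsDiscreteValuationRing.ofHasUnitMulPowIrreducibleFactorization
  have hpR : p ∈ RR σ := by rw [mem_RR, hp]; norm_num
  have unit : ∀ r : RR σ, (r : FractionRing (invariants σ)) ≠ 0 →
      (phi σ (r : FractionRing (invariants σ))).order = 0 → IsUnit r := by
    intro r hr0 hr
    have h1 : (r : FractionRing (invariants σ))⁻¹ ∈ RR σ := by
      rw [mem_RR, order_inv σ hr0, hr]; norm_num
    refine IsUnit.of_mul_eq_one ⟨_, h1⟩ ?_
    apply Subtype.ext
    exact mul_inv_cancel₀ hr0
  have nonunit : ∀ r : RR σ, IsUnit r → (phi σ (r : FractionRing (invariants σ))).order = 0 := by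
    intro r hr
    obtain ⟨s, hs⟩ := isUnit_iff_exists_inv.1 hr
    have h2 : (r : FractionRing (invariants σ)) * s = 1 := by
      have := congrArg (Subtype.val) hs
      exact this
    have hr0 : (r : FractionRing (invariants σ)) ≠ 0 := left_ne_zero_of_mul_eq_one h2
    have hs0 : (s : FractionRing (invariants σ)) ≠ 0 := right_ne_zero_of_mul_eq_one h2
    have h3 : (phi σ (r : FractionRing (invariants σ))).order +
        (phi σ (s : FractionRing (invariants σ))).order = 0 := by
      rw [← HahnSeries.order_mul (phi_ne σ hr0) (phi_ne σ hs0), ← (phi σ).map_mul, h2,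
        (phi σ).map_one, HahnSeries.order_one]
    have h4 := (mem_RR σ _).1 r.2
    have h5 := (mem_RR σ _).1 s.2
    omega
  obtain ⟨P, hP⟩ : ∃ P : RR σ, (P : FractionRing (invariants σ)) = p := ⟨⟨p, hpR⟩, rfl⟩
  refine ⟨P, ⟨?_, ?_⟩, ?_⟩
  · intro hu
    have h0 := nonunit P hu
    rw [hP] at h0
    omega
  · intro a b hab
    have h1 : p = (a : FractionRing (invariants σ)) * b := by
      rw [← hP, hab]; rfl
    have ha0 : (a : FractionRing (invariants σ)) ≠ 0 := fun h => hp0 (by rw [h1, h, zero_mul])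
    have hb0 : (b : FractionRing (invariants σ)) ≠ 0 := fun h => hp0 (by rw [h1, h, mul_zero])
    have h2 : (phi σ (a : FractionRing (invariants σ))).order +
        (phi σ (b : FractionRing (invariants σ))).order = 2 := by
      rw [← HahnSeries.order_mul (phi_ne σ ha0) (phi_ne σ hb0), ← (phi σ).map_mul, ← h1, hp]
    obtain ⟨m, hm⟩ := even_order h _ ha0
    obtain ⟨m', hm'⟩ := even_order h _ hb0
    have h4 := (mem_RR σ _).1 a.2
    have h5 := (mem_RR σ _).1 b.2
    have h6 : m = 0 ∨ m' = 0 := by omega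
    rcases h6 with rfl | rfl
    · exact Or.inl (unit a ha0 (by omega))
    · exact Or.inr (unit b hb0 (by omega))
  · intro r hr
    have hr0 : (r : FractionRing (invariants σ)) ≠ 0 := fun h => hr (Subtype.ext h)
    obtain ⟨m, hm⟩ := even_order h _ hr0
    have h4 := (mem_RR σ _).1 r.2
    obtain ⟨n, rfl⟩ : ∃ n : ℕ, m = n := ⟨m.toNat, by omega⟩
    refine ⟨n, ?_⟩
    have hpn : p ^ n ≠ 0 := pow_ne_zero n hp0
    have ho : (phi σ (p ^ n)).order = 2 * n := by
      rw [(phi σ).map_pow, HahnSeries.order_pow, hp]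
      simp only [nsmul_eq_mul]
      ring
    have hq : (r : FractionRing (invariants σ)) * (p ^ n)⁻¹ ∈ RR σ := by
      rw [mem_RR, (phi σ).map_mul, HahnSeries.order_mul (phi_ne σ hr0)
        (phi_ne σ (inv_ne_zero hpn)), order_inv σ hpn, ho]
      omega
    have hu : IsUnit (⟨_, hq⟩ : RR σ) := by
      apply unit
      · exact mul_ne_zero hr0 (inv_ne_zero hpn)
      · simp only
        rw [(phi σ).map_mul, HahnSeries.order_mul (phi_ne σ hr0)
          (phi_ne σ (inv_ne_zero hpn)), order_inv σ hpn, ho]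
        omega
    obtain ⟨v, hv⟩ := hu
    refine ⟨v, ?_⟩
    apply Subtype.ext
    have h7 : ((v : RR σ) : FractionRing (invariants σ)) =
        (r : FractionRing (invariants σ)) * (p ^ n)⁻¹ := by rw [hv]
    change (P : FractionRing (invariants σ)) ^ n * ((v : RR σ) : FractionRing (invariants σ)) = r
    rw [h7, hP, mul_comm, mul_assoc, inv_mul_cancel₀ hpn, mul_one]

/-- an element with constant coefficient a transcendental element -/
theorem aeval_order {t : FractionRing (invariants σ)} {τ : PowerSeries (FF k)}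
    (ht : phi σ t = HahnSeries.ofPowerSeries ℤ (FF k) τ)
    (hτ : PowerSeries.constantCoeff τ = RatFunc.X ^ 2) (p : Polynomial k) (hp : p ≠ 0) :
    Polynomial.aeval t p ∉ (RR σ).nonunits := by
  have h1 : phi σ (Polynomial.aeval t p) = HahnSeries.ofPowerSeries ℤ (FF k)
      (Polynomial.eval₂ (algebraMap k (PowerSeries (FF k))) τ p) := by
    rw [Polynomial.aeval_def, Polynomial.hom_eval₂, Polynomial.hom_eval₂, ht]
    congr 1
    ext c : 1
    rw [RingHom.comp_apply, RingHom.comp_apply,
      IsScalarTower.algebraMap_apply k (invariants σ) (FractionRing (invariants σ)), phi_alg]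
    congr 1
    exact (Th k).commutes c
  have h2 : PowerSeries.constantCoeff
      (Polynomial.eval₂ (algebraMap k (PowerSeries (FF k))) τ p) ≠ 0 := by
    rw [Polynomial.hom_eval₂, hτ]
    have h3 : (PowerSeries.constantCoeff (R := FF k)).comp (algebraMap k (PowerSeries (FF k))) =
        algebraMap k (FF k) := by
      ext c : 1
      rw [RingHom.comp_apply, PowerSeries.algebraMap_apply]
      simp
    rw [h3]
    exact theta_trans p hp
  have h3 := order_ofPS_X_pow_mul h2 0
  rw [pow_zero, one_mul] at h3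
  rw [mem_nonunits_RR, h1]
  rintro (h4 | h4)
  · rw [h4, map_zero] at h1
    exact h3.2 h1.symm
  · rw [h3.1] at h4
    exact lt_irrefl _ h4

/-- P6 -/
theorem stmtP6 : StmtP6.{u} := by
  intro k _ _ _ σ _ x y h hz
  obtain ⟨x', y', hx, hy, cx, cy⟩ := Th_xy h
  have cy0 : PowerSeries.constantCoeff y' ≠ 0 := by
    rw [cy]; exact pow_ne_zero 2 RatFunc.X_ne_zero
  have cx0 : PowerSeries.constantCoeff x' ≠ 0 := by rw [cx]; exact one_ne_zero
  set z := y * MvPowerSeries.X 1 + x ^ 4 * MvPowerSeries.X 0 with hzdef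
  have hz' : Th k z = PowerSeries.X ^ 6 * (PowerSeries.C RatFunc.X * y' +
      PowerSeries.X ^ 3 * x' ^ 4) := by
    rw [hzdef, map_add, map_mul, map_mul, map_pow, Th_X0, Th_X1, hx, hy]; ring
  set z' := PowerSeries.C RatFunc.X * y' + PowerSeries.X ^ 3 * x' ^ 4 with hz'def
  have cz : PowerSeries.constantCoeff z' = RatFunc.X ^ 3 := by
    rw [hz'def, map_add, map_mul, map_mul, cy]
    simp
    ring
  have ox := order_ofPS_X_pow_mul cx0 2
  have oy := order_ofPS_X_pow_mul cy0 4
  rw [← hx, ← phi_toK x h.sx] at ox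
  rw [← hy, ← phi_toK y h.sy] at oy
  set xK := toK σ x h.sx with hxK
  set yK := toK σ y h.sy with hyK
  have hx0 : xK ≠ 0 := fun h0 => ox.2 (by rw [h0, map_zero])
  have hy0 : yK ≠ 0 := fun h0 => oy.2 (by rw [h0, map_zero])
  have ux : x' * x'⁻¹ = 1 := PowerSeries.mul_inv_cancel x' cx0
  have uy : y' * y'⁻¹ = 1 := PowerSeries.mul_inv_cancel y' cy0
  -- the element `s`
  have hs : phi σ (toK σ z hz / (xK * yK)) =
      HahnSeries.ofPowerSeries ℤ (FF k) (z' * (x'⁻¹ * y'⁻¹)) := by
    rw [div_eq_mul_inv, (phi σ).map_mul, map_inv₀, (phi σ).map_mul, phi_toK z hz, hxK, hyK,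
      phi_toK x h.sx, phi_toK y h.sy, hx, hy, hz']
    rw [hxK, phi_toK x h.sx, hx] at ox
    rw [hyK, phi_toK y h.sy, hy] at oy
    rw [← div_eq_mul_inv, div_eq_iff (mul_ne_zero ox.2 oy.2), ← map_mul, ← map_mul]
    congr 1
    linear_combination (- PowerSeries.X ^ 6 * z' * (y' * y'⁻¹)) * ux -
      PowerSeries.X ^ 6 * z' * uy
  have ht : phi σ (yK / xK ^ 2) = HahnSeries.ofPowerSeries ℤ (FF k) (y' * (x'⁻¹ * x'⁻¹)) := by
    rw [div_eq_mul_inv, (phi σ).map_mul, map_inv₀, (phi σ).map_pow, hxK, hyK,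
      phi_toK x h.sx, phi_toK y h.sy, hx, hy]
    rw [hxK, phi_toK x h.sx, hx] at ox
    rw [← div_eq_mul_inv, div_eq_iff (pow_ne_zero 2 ox.2), ← map_pow, ← map_mul]
    congr 1
    linear_combination (- PowerSeries.X ^ 4 * y' * (x' * x'⁻¹ + 1)) * ux
  have cxi : PowerSeries.constantCoeff x'⁻¹ = 1 := by
    rw [PowerSeries.constantCoeff_inv, cx, inv_one]
  have cyi : PowerSeries.constantCoeff y'⁻¹ = (RatFunc.X ^ 2)⁻¹ := by
    rw [PowerSeries.constantCoeff_inv, cy]
  have cs : PowerSeries.constantCoeff (z' * (x'⁻¹ * y'⁻¹)) = RatFunc.X := by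
    rw [map_mul, map_mul, cz, cxi, cyi]
    have : (RatFunc.X : FF k) ≠ 0 := RatFunc.X_ne_zero
    field_simp
  have ct : PowerSeries.constantCoeff (y' * (x'⁻¹ * x'⁻¹)) = RatFunc.X ^ 2 := by
    rw [map_mul, map_mul, cy, cxi, one_mul, mul_one]
  have os := order_ofPS_X_pow_mul (p := z' * (x'⁻¹ * y'⁻¹))
    (by rw [cs]; exact RatFunc.X_ne_zero) 0
  rw [pow_zero, one_mul, ← hs] at os
  have lead : (phi σ (toK σ z hz / (xK * yK))).coeff 0 = RatFunc.X := by
    have e := HahnSeries.ofPowerSeries_apply_coeff (Γ := ℤ) (z' * (x'⁻¹ * y'⁻¹)) 0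
    rw [PowerSeries.coeff_zero_eq_constantCoeff, cs, Nat.cast_zero] at e
    rw [hs, e]
  refine ⟨RR σ, ⟨?_, ?_, ?_, ?_⟩, ?_, ?_, ?_, ?_⟩
  · -- `B ⊆ R`
    intro b
    rw [mem_RR, phi_alg]
    by_cases hb : (b : A k) = 0
    · rw [hb]; simp
    · obtain ⟨w, w1, w2, w3, w4⟩ := exists_wt hb
      rw [(order_ofPS w3 w4).1]
      exact Int.natCast_nonneg w
  · -- centre
    intro b hb
    rw [mem_nonunits_RR]
    by_cases hb0 : b = 0
    · left; rw [hb0, map_zero]
    · right
      rw [phi_alg]
      have hb0' : (b : A k) ≠ 0 := fun h => hb0 (Subtype.ext h)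
      obtain ⟨w, w1, w2, w3, w4⟩ := exists_wt hb0'
      rw [(order_ofPS w3 w4).1]
      have hc : MvPowerSeries.constantCoeff (b : A k) = 0 := by
        by_contra hne
        apply hb
        have hu : IsUnit (b : A k) := by
          rw [MvPowerSeries.isUnit_iff_constantCoeff]
          exact isUnit_iff_ne_zero.2 hne
        obtain ⟨c, hc⟩ := isUnit_iff_exists_inv.1 hu
        have hσb : σ (b : A k) = b := b.2
        have hσc : σ c = c := by
          have h1 := congrArg σ hc
          rw [map_mul, hσb, map_one] at h1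
          calc σ c = (b * c) * σ c := by rw [hc, one_mul]
            _ = c * (b * σ c) := by ring
            _ = c := by rw [h1, mul_one]
        refine IsUnit.of_mul_eq_one (⟨c, hσc⟩ : invariants σ) ?_
        exact Subtype.ext hc
      have hw : w ≠ 0 := by
        rintro rfl
        apply w2
        intro d hd
        have hd0 : d = 0 := by
          simp only [wt] at hd
          ext i
          fin_cases i
          · simp; omega
          · simp; omega
        rw [hd0, MvPowerSeries.coeff_zero_eq_constantCoeff]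
        exact hc
      omega
  · exact dvr_RR h hx0 ox.1
  · refine ⟨yK / xK ^ 2, ?_, ?_⟩
    · have o := order_ofPS_X_pow_mul (p := y' * (x'⁻¹ * x'⁻¹))
        (by rw [ct]; exact pow_ne_zero 2 RatFunc.X_ne_zero) 0
      rw [pow_zero, one_mul, ← ht] at o
      rw [mem_RR, o.1]
      norm_num
    · intro p hp
      exact aeval_order ht ct p hp
  · rw [mem_nonunits_RR, ox.1]
    right; norm_num
  · have e : (phi σ (xK ^ 2 / yK)).order = 0 := by
      rw [div_eq_mul_inv, (phi σ).map_mul, HahnSeries.order_mul (phi_ne σ (pow_ne_zero 2 hx0))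
        (phi_ne σ (inv_ne_zero hy0)), order_inv σ hy0, (phi σ).map_pow, HahnSeries.order_pow,
        ox.1, oy.1]
      norm_num
    rw [mem_RR, e]
  · have e : (phi σ (xK ^ 2 / yK)).order = 0 := by
      rw [div_eq_mul_inv, (phi σ).map_mul, HahnSeries.order_mul (phi_ne σ (pow_ne_zero 2 hx0))
        (phi_ne σ (inv_ne_zero hy0)), order_inv σ hy0, (phi σ).map_pow, HahnSeries.order_pow,
        ox.1, oy.1]
      norm_num
    rw [mem_nonunits_RR, e]
    rintro (h1 | h1)
    · exact div_ne_zero (pow_ne_zero 2 hx0) hy0 h1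
    · exact lt_irrefl _ h1
  · intro a₀ a₁ a₂ a₃ ha
    have ev : ∀ a : FractionRing (invariants σ), phi σ a ≠ 0 → Even (phi σ a).order := by
      intro a ha
      apply even_order h
      rintro rfl
      exact ha (map_zero _)
    rw [mem_RR] at ha ⊢
    rw [mem_RR, mem_RR, mem_RR]
    refine key (ev a₀) (ev a₁) (ev a₂) (ev a₃) (X := phi σ xK)
      (S := phi σ (toK σ z hz / (xK * yK))) ox.1 ox.2 os.1 os.2 ?_ ?_
    · intro a b hab
      rw [lead] at hab
      exact theta_sq a b hab
    · rw [(phi σ).map_add, (phi σ).map_add, (phi σ).map_add, (phi σ).map_mul, (phi σ).map_mul,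
        (phi σ).map_mul, (phi σ).map_mul, (phi σ).map_pow, (phi σ).map_pow, (phi σ).map_pow,
        (phi σ).map_pow] at ha
      exact ha

end Pool.Agent.T9h80.WQ
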