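import Pool.Agent.T9h29.WQ.Spec

/-!
# Weights on `k[[u, v]]` (piece P6, part a)
-/

set_option autoImplicit false

namespace Pool.Agent.T9h80.WQ

open MvPowerSeries Pool.Agent.T9h29.WQ

universe u

variable {k : Type u} [Field k]

/-- weight -/
def wt (d : Fin 2 →₀ ℕ) : ℕ := d 0 + 2 * d 1

theorem wt_add (d e : Fin 2 →₀ ℕ) : wt (d + e) = wt d + wt e := by
  simp only [wt, Finsupp.add_apply]; ring

/-- all terms have weight at least `m` -/
def J (m : ℕ) (f : A k) : Prop := ∀ d, wt d < m → coeff d f = 0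

theorem J_zero (f : A k) : J 0 f := fun _ h => absurd h (Nat.not_lt_zero _)

theorem J.mono {m n : ℕ} {f : A k} (h : J m f) (hn : n ≤ m) : J n f :=
  fun d hd => h d (lt_of_lt_of_le hd hn)

theorem J.add {m : ℕ} {f g : A k} (hf : J m f) (hg : J m g) : J m (f + g) := by
  intro d hd
  rw [map_add, hf d hd, hg d hd, add_zero]

theorem J.neg {m : ℕ} {f : A k} (hf : J m f) : J m (-f) := by
  intro d hd
  rw [map_neg, hf d hd, neg_zero]

theorem J.mul {m n : ℕ} {f g : A k} (hf : J m f) (hg : J n g) : J (m + n) (f * g) := by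
  classical
  intro d hd
  rw [coeff_mul]
  refine Finset.sum_eq_zero fun p hp => ?_
  rw [Finset.HasAntidiagonal.mem_antidiagonal] at hp
  rw [← hp, wt_add] at hd
  rcases Nat.lt_or_ge (wt p.1) m with h | h
  · rw [hf _ h, zero_mul]
  · rw [hg _ (by omega), mul_zero]

theorem J_X0 : J 1 (X 0 : A k) := by
  classical
  intro d hd
  rw [coeff_X, if_neg]
  rintro rfl
  simp [wt] at hd

theorem J_X1 : J 2 (X 1 : A k) := by
  classical
  intro d hd
  rw [coeff_X, if_neg]
  rintro rfl
  simp [wt] at hd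

theorem J.pderiv {m : ℕ} {f : A k} (hf : J m f) : J (m - 1) (pderiv k 0 f) := by
  intro d hd
  rw [coeff_pderiv, hf, zero_mul]
  rw [wt_add]
  simp [wt] at hd ⊢
  omega

/-- decomposition -/
theorem decomp (f : A k) (m : ℕ) (hf : J m f) :
    ∃ g₁ g₂ : A k, J (m - 1) g₁ ∧ J (m - 2) g₂ ∧
      f = C (constantCoeff f) + X 0 * g₁ + X 1 * g₂ := by
  classical
  let g₂ : A k := fun d => coeff (d + Finsupp.single 1 1) f
  let g₁ : A k := fun d => if d 1 = 0 then coeff (d + Finsupp.single 0 1) f else 0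
  have c₂ : ∀ d, coeff d g₂ = coeff (d + Finsupp.single 1 1) f := fun d => rfl
  have c₁ : ∀ d, coeff d g₁ = if d 1 = 0 then coeff (d + Finsupp.single 0 1) f else 0 :=
    fun d => rfl
  refine ⟨g₁, g₂, ?_, ?_, ?_⟩
  · intro d hd
    rw [c₁]
    split_ifs with h
    · apply hf
      rw [wt_add]
      simp [wt] at hd ⊢
      omega
    · rfl
  · intro d hd
    rw [c₂]
    apply hf
    rw [wt_add]
    simp [wt] at hd ⊢
    omega
  · ext d
    rw [map_add, map_add, coeff_C, X, X, coeff_monomial_mul, coeff_monomial_mul, c₁, c₂,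
      one_mul, one_mul]
    by_cases h1 : d 1 = 0
    · have n1 : ¬ Finsupp.single 1 1 ≤ d := by
        intro h
        have := h 1
        simp [h1] at this
      rw [if_neg n1, add_zero]
      by_cases h0 : d 0 = 0
      · have hd : d = 0 := by
          ext i
          fin_cases i
          · exact h0
          · exact h1
        have n0 : ¬ Finsupp.single 0 1 ≤ d := by
          intro h
          have := h 0
          simp [h0] at this
        rw [if_neg n0, add_zero, if_pos hd, hd, coeff_zero_eq_constantCoeff]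
      · have n0 : Finsupp.single 0 1 ≤ d := by
          rw [Finsupp.single_le_iff]; omega
        have hd : d ≠ 0 := fun h => h0 (by rw [h]; rfl)
        rw [if_neg hd, zero_add, if_pos n0, if_pos (by simp [h1]), tsub_add_cancel_of_le n0]
    · have n1 : Finsupp.single 1 1 ≤ d := by
        rw [Finsupp.single_le_iff]; omega
      have hd : d ≠ 0 := fun h => h1 (by rw [h]; rfl)
      rw [if_neg hd, zero_add, if_pos n1, tsub_add_cancel_of_le n1]
      have h2 : ¬ ((d - Finsupp.single 0 1 : Fin 2 →₀ ℕ) 1 = 0) := by simpa using h1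
      rw [if_neg h2, ite_self, zero_add]

section act

variable {σ : A k ≃ₐ[k] A k} {x y a b : A k}

/-- the error term -/
noncomputable def E (σ : A k ≃ₐ[k] A k) (a f : A k) : A k := σ f - f - a * pderiv k 0 f

theorem E_add (f g : A k) : E σ a (f + g) = E σ a f + E σ a g := by
  simp only [E, map_add]; ring

theorem E_C (c : k) : E σ a (C c) = 0 := by
  have h : σ (C c) = C c := by
    exact σ.commutes c
  have h2 : pderiv k 0 (C c : A k) = 0 := by
    simp
  rw [E, h, h2]; ring

theorem E_X0 (h : Artin σ x y a b) (g : A k) :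
    E σ a (X 0 * g) = X 0 * E σ a g + a ^ 2 * pderiv k 0 g + a * E σ a g := by
  have h2 : pderiv k 0 (X 0 * g : A k) = X 0 * pderiv k 0 g + g := by
    rw [Derivation.leibniz, pderiv_X_self]
    simp
  simp only [E]
  rw [map_mul, h.su, h2]
  ring

theorem E_X1 (h : Artin σ x y a b) (g : A k) :
    E σ a (X 1 * g) = X 1 * E σ a g + b * (g + a * pderiv k 0 g + E σ a g) := by
  have h2 : pderiv k 0 (X 1 * g : A k) = X 1 * pderiv k 0 g := by
    rw [Derivation.leibniz, pderiv_X_of_ne (by decide)]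
    simp
  simp only [E]
  rw [map_mul, h.sv, h2]
  ring

theorem J_pow {m : ℕ} {f : A k} (h : J m f) (n : ℕ) : J (n * m) (f ^ n) := by
  induction n with
  | zero => rw [Nat.zero_mul]; exact J_zero _
  | succ n ih => rw [pow_succ, Nat.succ_mul]; exact ih.mul h

theorem J_xy (h : Artin σ x y y (x ^ 4)) : J 2 x ∧ J 4 y := by
  have hy2 : J 2 y := by
    rw [h.hy]
    refine ((J_pow J_X1 2).mono (by norm_num)).add (((J_zero (x ^ 4)).mul J_X1).mono (by norm_num))
  have hx : J 2 x := by
    rw [h.hx]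
    exact ((J_pow J_X0 2).mono (by norm_num)).add ((hy2.mul J_X0).mono (by norm_num))
  refine ⟨hx, ?_⟩
  rw [h.hy]
  exact ((J_pow J_X1 2).mono (by norm_num)).add (((J_pow hx 4).mul J_X1).mono (by norm_num))

theorem J_E0 (h : Artin σ x y y (x ^ 4)) (j : ℕ) (hj : j ≤ 4) : ∀ f, J j (E σ y f) := by
  obtain ⟨hx, hy⟩ := J_xy h
  induction j with
  | zero => exact fun f => J_zero _
  | succ j ih =>
    intro f
    obtain ⟨g₁, g₂, -, -, hf⟩ := decomp f 0 (J_zero f)
    rw [hf, E_add, E_add, E_C, zero_add, E_X0 h, E_X1 h]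
    have e1 := ih (by omega) g₁
    have e2 := ih (by omega) g₂
    refine J.add (J.add (J.add ?_ ?_) ?_) (J.add ?_ ?_)
    · exact (J_X0.mul e1).mono (by omega)
    · exact ((J_pow hy 2).mul (J_zero (pderiv k 0 g₁))).mono (by omega)
    · exact (hy.mul e1).mono (by omega)
    · exact (J_X1.mul e2).mono (by omega)
    · exact ((J_pow hx 4).mul (J_zero _)).mono (by omega)

theorem J_E (h : Artin σ x y y (x ^ 4)) (m : ℕ) : ∀ f, J m f → J (m + 4) (E σ y f) := by
  obtain ⟨hx, hy⟩ := J_xy h
  induction m using Nat.strong_induction_on with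
  | _ m ih =>
    intro f hf
    rcases Nat.eq_zero_or_pos m with rfl | hm
    · exact J_E0 h 4 le_rfl f
    obtain ⟨g₁, g₂, h₁, h₂, hf'⟩ := decomp f m hf
    have hc : constantCoeff f = 0 := by
      rw [← coeff_zero_eq_constantCoeff]
      exact hf 0 (by simpa [wt] using hm)
    rw [hf', hc, map_zero, zero_add, E_add, E_X0 h, E_X1 h]
    have e1 := ih (m - 1) (by omega) g₁ h₁
    have e2 : J (m - 2 + 4) (E σ y g₂) := ih (m - 2) (by omega) g₂ h₂
    have p1 := h₁.pderiv
    have p2 := h₂.pderiv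
    refine J.add (J.add (J.add ?_ ?_) ?_) (J.add ?_ ?_)
    · exact (J_X0.mul e1).mono (by omega)
    · exact ((J_pow hy 2).mul p1).mono (by omega)
    · exact (hy.mul e1).mono (by omega)
    · exact (J_X1.mul e2).mono (by omega)
    · refine ((J_pow hx 4).mul (m := 4 * 2) (n := m - 2) ?_).mono (by omega)
      exact J.add (J.add h₂ ((hy.mul p2).mono (by omega))) (e2.mono (by omega))

/-- invariants have even weight -/
theorem even_wt [CharP k 2] (h : Artin σ x y y (x ^ 4)) {f : A k} (hf : σ f = f) {w : ℕ}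
    (h1 : J w f) (h2 : ¬ J (w + 1) f) : Even w := by
  by_contra hodd
  obtain ⟨hx, hy⟩ := J_xy h
  have h3 := J_E h w f h1
  rw [E, hf, sub_self, zero_sub] at h3
  have h4 : J (w + 4) (y * pderiv k 0 f) := by simpa using h3.neg
  have h5 : J (w + 4) (X 1 ^ 2 * pderiv k 0 f) := by
    have e : X 1 ^ 2 * pderiv k 0 f = y * pderiv k 0 f + -(x ^ 4 * X 1 * pderiv k 0 f) := by
      rw [h.hy]; ring
    rw [e]
    refine h4.add (J.neg ?_)
    exact (((J_pow hx 4).mul J_X1).mul h1.pderiv).mono (by omega)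
  rw [J] at h2
  push Not at h2
  obtain ⟨d, hd, hd0⟩ := h2
  have hw : wt d = w := by
    rcases Nat.lt_or_ge (wt d) w with h' | h'
    · exact absurd (h1 d h') hd0
    · omega
  have hodd0 : Odd (d 0) := by
    rw [← Nat.not_even_iff_odd]
    intro he
    apply hodd
    rw [← hw, wt]
    exact he.add (even_two_mul _)
  have h0 : 1 ≤ d 0 := by
    rcases hodd0 with ⟨c, hc⟩; omega
  have hle : Finsupp.single 0 1 ≤ d := by
    rw [Finsupp.single_le_iff]; omega
  have h6 := h5 (Finsupp.single 1 2 + (d - Finsupp.single 0 1)) (by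
    have e : wt (d - Finsupp.single 0 1) + 1 = w := by
      have := wt_add (d - Finsupp.single 0 1) (Finsupp.single 0 1)
      rw [tsub_add_cancel_of_le hle, hw] at this
      rw [this]; simp [wt]
    rw [wt_add]
    simp [wt] at e ⊢
    omega)
  rw [X_pow_eq, coeff_add_monomial_mul, one_mul, coeff_pderiv, tsub_add_cancel_of_le hle] at h6
  rcases mul_eq_zero.1 h6 with h7 | h7
  · exact hd0 h7
  · have e : (d - Finsupp.single 0 1 : Fin 2 →₀ ℕ) 0 + 1 = d 0 := by simp; omega
    have e2 : (((d - Finsupp.single 0 1 : Fin 2 →₀ ℕ) 0 : ℕ) : k) + 1 = (d 0 : k) := by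
      rw [← e]; push_cast; ring
    rw [e2] at h7
    have h8 := (CharP.cast_eq_zero_iff k 2 (d 0)).1 h7
    exact (Nat.not_even_iff_odd.2 hodd0) (even_iff_two_dvd.2 h8)

end act

end Pool.Agent.T9h80.WQ
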