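import Pool.Agent.T9h80.WQ.P6a

/-!
# The substitution `u ↦ t`, `v ↦ θ t²` (piece P6, part b)
-/

set_option autoImplicit false

namespace Pool.Agent.T9h80.WQ

open MvPowerSeries Pool.Agent.T9h29.WQ

universe u

variable (k : Type u) [Field k]

/-- the field `k(θ)` -/
abbrev FF : Type u := RatFunc k

/-- the images of the variables -/
noncomputable def im : Fin 2 → MvPowerSeries Unit (FF k) :=
  ![(PowerSeries.X : PowerSeries (FF k)), PowerSeries.C RatFunc.X * PowerSeries.X ^ 2]

theorem hasSubst_im : HasSubst (im k) := by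
  apply hasSubst_of_constantCoeff_zero
  intro s
  fin_cases s
  · exact PowerSeries.constantCoeff_X
  · change PowerSeries.constantCoeff (PowerSeries.C RatFunc.X * PowerSeries.X ^ 2 : PowerSeries (FF k)) = 0
    simp

/-- the substitution -/
noncomputable def Th : A k →ₐ[k] PowerSeries (FF k) := substAlgHom (hasSubst_im k)

variable {k}

theorem Th_X0 : Th k (X 0) = PowerSeries.X := by
  exact substAlgHom_X (hasSubst_im k) 0

theorem Th_X1 : Th k (X 1) = PowerSeries.C RatFunc.X * PowerSeries.X ^ 2 := by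
  exact substAlgHom_X (hasSubst_im k) 1

/-- the exponent with second entry `j` and weight `n` -/
noncomputable def dd (n j : ℕ) : Fin 2 →₀ ℕ := Finsupp.single 0 (n - 2 * j) + Finsupp.single 1 j

theorem prod_im (d : Fin 2 →₀ ℕ) : ((d.prod fun s e => (im k s) ^ e : MvPowerSeries Unit (FF k)) :
    PowerSeries (FF k)) =
      PowerSeries.C ((RatFunc.X : FF k) ^ (d 1)) * PowerSeries.X ^ (wt d) := by
  rw [Finsupp.prod_fintype _ _ (fun i => pow_zero _), Fin.prod_univ_two]
  have e0 : im k 0 = (PowerSeries.X : PowerSeries (FF k)) := rfl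
  have e1 : im k 1 = (PowerSeries.C RatFunc.X * PowerSeries.X ^ 2 : PowerSeries (FF k)) := rfl
  rw [e0, e1]
  change (PowerSeries.X : PowerSeries (FF k)) ^ d 0 *
    (PowerSeries.C RatFunc.X * PowerSeries.X ^ 2) ^ d 1 = _
  rw [mul_pow, ← pow_mul, wt, pow_add, map_pow]
  ring

/-- the polynomial of weight `n` -/
noncomputable def po (n : ℕ) (f : A k) : Polynomial k :=
  ∑ j ∈ Finset.range (n / 2 + 1), Polynomial.C (coeff (dd n j) f) * Polynomial.X ^ j

theorem dd_wt {n j : ℕ} (h : 2 * j ≤ n) : wt (dd n j) = n := by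
  simp [wt, dd]; omega

theorem dd_inj {n j j' : ℕ} (h : dd n j = dd n j') : j = j' := by
  have := DFunLike.congr_fun h 1
  simpa [dd] using this

theorem dd_of_wt {n : ℕ} {d : Fin 2 →₀ ℕ} (h : wt d = n) : dd n (d 1) = d ∧ 2 * d 1 ≤ n := by
  constructor
  · ext i
    fin_cases i
    · simp only [wt] at h
      simp [dd]; omega
    · simp [dd]
  · simp only [wt] at h; omega

theorem coeff_Th (n : ℕ) (f : A k) : PowerSeries.coeff n (Th k f) =
    algebraMap (Polynomial k) (FF k) (po n f) := by
  classical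
  have h1 : PowerSeries.coeff n (Th k f) =
      ∑ᶠ d : Fin 2 →₀ ℕ, coeff d f • PowerSeries.coeff n ((d.prod fun s e => (im k s) ^ e : MvPowerSeries Unit (FF k)) : PowerSeries (FF k)) := by
    have := coeff_subst (hasSubst_im k) f (Finsupp.single () n)
    rw [← substAlgHom_apply (hasSubst_im k)] at this
    exact this
  have h2 : ∀ d : Fin 2 →₀ ℕ, coeff d f • PowerSeries.coeff n ((d.prod fun s e => (im k s) ^ e : MvPowerSeries Unit (FF k)) : PowerSeries (FF k)) =
      if wt d = n then coeff d f • (RatFunc.X : FF k) ^ (d 1) else 0 := by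
    intro d
    rw [prod_im, PowerSeries.coeff_C_mul, PowerSeries.coeff_X_pow]
    by_cases h : wt d = n
    · rw [if_pos h, if_pos h.symm, mul_one]
    · rw [if_neg h, if_neg (fun h' => h h'.symm), mul_zero, smul_zero]
  rw [h1, finsum_congr h2,
    finsum_eq_sum_of_support_subset (s := (Finset.range (n / 2 + 1)).image (dd n))]
  · rw [Finset.sum_image (fun a _ b _ h => dd_inj h), po, map_sum]
    refine Finset.sum_congr rfl fun j hj => ?_
    rw [Finset.mem_range] at hj
    have h3 : 2 * j ≤ n := by omega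
    rw [if_pos (dd_wt h3), map_mul, map_pow, RatFunc.algebraMap_X, RatFunc.algebraMap_C]
    have h4 : (dd n j) 1 = j := by simp [dd]
    rw [h4, Algebra.smul_def]
    rfl
  · intro d hd
    rw [Function.mem_support] at hd
    have h : wt d = n := by
      by_contra h
      rw [if_neg h] at hd
      exact hd rfl
    obtain ⟨h3, h4⟩ := dd_of_wt h
    rw [Finset.mem_coe, Finset.mem_image]
    exact ⟨d 1, by rw [Finset.mem_range]; omega, h3⟩

theorem po_eq_zero {n : ℕ} {f : A k} (h : po n f = 0) : ∀ d, wt d = n → coeff d f = 0 := by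
  intro d hd
  obtain ⟨h1, h2⟩ := dd_of_wt hd
  have h3 := congrArg (fun p => Polynomial.coeff p (d 1)) h
  simp only [po, Polynomial.finsetSum_coeff, Polynomial.coeff_C_mul, Polynomial.coeff_X_pow,
    Polynomial.coeff_zero] at h3
  rw [Finset.sum_eq_single (d 1)] at h3
  · rw [if_pos rfl, mul_one, h1] at h3
    exact h3
  · intro j _ hj
    rw [if_neg (Ne.symm hj), mul_zero]
  · intro h4
    exfalso
    apply h4
    rw [Finset.mem_range]; omega

/-- the order of the image -/
theorem exists_wt {f : A k} (hf : f ≠ 0) : ∃ w, J w f ∧ ¬ J (w + 1) f ∧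
    (∀ n < w, PowerSeries.coeff n (Th k f) = 0) ∧ PowerSeries.coeff w (Th k f) ≠ 0 := by
  classical
  have h1 : ∃ w, ∃ d, wt d = w ∧ coeff d f ≠ 0 := by
    by_contra hcon
    push Not at hcon
    apply hf
    ext d
    rw [hcon _ d rfl, map_zero]
  obtain ⟨d, hd, hd0⟩ := Nat.find_spec h1
  have hmin : ∀ m < Nat.find h1, ∀ d, wt d = m → coeff d f = 0 := by
    intro m hm d' hd'
    by_contra hne
    exact Nat.find_min h1 hm ⟨d', hd', hne⟩
  refine ⟨Nat.find h1, fun d' hd' => hmin _ hd' d' rfl, fun hJ => hd0 (hJ d (by omega)), ?_, ?_⟩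
  · intro n hn
    rw [coeff_Th]
    have : po n f = 0 := by
      rw [po]
      refine Finset.sum_eq_zero fun j hj => ?_
      rw [Finset.mem_range] at hj
      rw [hmin n hn _ (dd_wt (by omega)), map_zero, zero_mul]
    rw [this, map_zero]
  · rw [coeff_Th]
    intro h0
    have h2 : po (Nat.find h1) f = 0 := by
      apply IsFractionRing.injective (Polynomial k) (FF k)
      rw [h0, map_zero]
    exact hd0 (po_eq_zero h2 d hd)

theorem Th_injective : Function.Injective (Th k) := by
  rw [injective_iff_map_eq_zero]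
  intro f hf
  by_contra hne
  obtain ⟨w, -, -, -, h⟩ := exists_wt hne
  rw [hf, map_zero] at h
  exact h rfl

end Pool.Agent.T9h80.WQ
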