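import Pool.Agent.T9h80.WQ.P6b

/-!
# The valuation ring (piece P6, part c)
-/

set_option autoImplicit false

namespace Pool.Agent.T9h80.WQ

open Pool.Agent.T9h29.WQ

universe u

section general

variable {F : Type u} [Field F]

/-- orders of power series -/
theorem order_ofPS {p : PowerSeries F} {w : ℕ} (h1 : ∀ n < w, PowerSeries.coeff n p = 0)
    (h2 : PowerSeries.coeff w p ≠ 0) :
    (HahnSeries.ofPowerSeries ℤ F p).order = w ∧ HahnSeries.ofPowerSeries ℤ F p ≠ 0 := by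
  have h3 : (HahnSeries.ofPowerSeries ℤ F p).coeff w = PowerSeries.coeff w p :=
    HahnSeries.ofPowerSeries_apply_coeff p w
  have h4 : HahnSeries.ofPowerSeries ℤ F p ≠ 0 := by
    intro h
    rw [h, HahnSeries.coeff_zero] at h3
    exact h2 h3.symm
  refine ⟨le_antisymm (HahnSeries.order_le_of_coeff_ne_zero (by rw [h3]; exact h2)) ?_, h4⟩
  rw [HahnSeries.le_order_iff_forall h4]
  intro j hj
  have h5 := PowerSeries.coeff_coe p j
  rw [h5]
  split_ifs with h6
  · rfl
  · apply h1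
    omega

theorem order_ofPS_X_pow_mul {p : PowerSeries F} (h : PowerSeries.constantCoeff p ≠ 0) (w : ℕ) :
    (HahnSeries.ofPowerSeries ℤ F (PowerSeries.X ^ w * p)).order = w ∧
      HahnSeries.ofPowerSeries ℤ F (PowerSeries.X ^ w * p) ≠ 0 := by
  apply order_ofPS
  · intro n hn
    rw [PowerSeries.coeff_X_pow_mul', if_neg (by omega)]
  · rw [PowerSeries.coeff_X_pow_mul', if_pos le_rfl, Nat.sub_self,
      PowerSeries.coeff_zero_eq_constantCoeff]
    exact h

theorem min_case (α β : LaurentSeries F) (S : LaurentSeries F) (hS : S.order = 0) (hS0 : S ≠ 0)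
    (hsq : ∀ a b : F, a ^ 2 + b ^ 2 * S.coeff 0 = 0 → a = 0 ∧ b = 0) :
    (α ^ 2 + β ^ 2 * S).orderTop = min (α ^ 2).orderTop (β ^ 2).orderTop := by
  have e : (β ^ 2 * S).orderTop = (β ^ 2).orderTop := by
    rw [HahnSeries.orderTop_mul, ← HahnSeries.order_eq_orderTop_of_ne_zero hS0, hS]
    simp
  rcases lt_trichotomy (α ^ 2).orderTop (β ^ 2 * S).orderTop with h | h | h
  · rw [HahnSeries.orderTop_add_eq_left h, ← e, min_eq_left h.le]
  · rw [← e, ← h, min_self]
    apply le_antisymm _ (le_trans (by rw [h, min_self]) HahnSeries.min_orderTop_le_orderTop_add)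
    by_cases hα : α = 0
    · rw [hα] at h ⊢
      have h0 : β ^ 2 * S = 0 := by
        rw [← HahnSeries.orderTop_eq_top, ← h]; simp
      rw [h0]
      simp
    · have hβ : β ≠ 0 := by
        rintro rfl
        rw [zero_pow two_ne_zero, zero_mul, HahnSeries.orderTop_zero,
          HahnSeries.orderTop_eq_top] at h
        exact hα (pow_eq_zero_iff (two_ne_zero) |>.1 h)
      have h1 : (α ^ 2).order = (β ^ 2 * S).order := by
        have := h
        rw [← HahnSeries.order_eq_orderTop_of_ne_zero (pow_ne_zero 2 hα),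
          ← HahnSeries.order_eq_orderTop_of_ne_zero (mul_ne_zero (pow_ne_zero 2 hβ) hS0)] at this
        exact_mod_cast this
      have h2 : (α ^ 2).coeff (α ^ 2).order = α.leadingCoeff ^ 2 := by
        rw [← HahnSeries.leadingCoeff_eq, pow_two, HahnSeries.leadingCoeff_mul, pow_two]
      have h3 : (β ^ 2 * S).coeff (β ^ 2 * S).order = β.leadingCoeff ^ 2 * S.coeff 0 := by
        rw [← HahnSeries.leadingCoeff_eq, pow_two, HahnSeries.leadingCoeff_mul,
          HahnSeries.leadingCoeff_mul, pow_two, HahnSeries.leadingCoeff_eq (x := S), hS]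
      have h4 : (α ^ 2 + β ^ 2 * S).coeff (α ^ 2).order ≠ 0 := by
        rw [HahnSeries.coeff_add, h2, h1, h3]
        intro h5
        exact HahnSeries.leadingCoeff_ne_zero.2 hα (hsq _ _ h5).1
      rw [← HahnSeries.order_eq_orderTop_of_ne_zero (pow_ne_zero 2 hα)]
      exact HahnSeries.orderTop_le_of_coeff_ne_zero h4
  · rw [HahnSeries.orderTop_add_eq_right h, ← e, min_eq_right h.le]

/-- infinite or divisible by four -/
def T4 (g : WithTop ℤ) : Prop := g = ⊤ ∨ ∃ m : ℤ, g = ((4 * m : ℤ) : WithTop ℤ)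

theorem T4.min {g h : WithTop ℤ} (hg : T4 g) (hh : T4 h) : T4 (min g h) := by
  rcases min_choice g h with e | e <;> rw [e] <;> assumption

theorem T4_sq {α : LaurentSeries F} (h : α ≠ 0 → Even α.order) : T4 (α ^ 2).orderTop := by
  by_cases hα : α = 0
  · left; rw [hα]; simp
  · right
    obtain ⟨m, hm⟩ := h hα
    refine ⟨m, ?_⟩
    rw [← HahnSeries.order_eq_orderTop_of_ne_zero (pow_ne_zero 2 hα), HahnSeries.order_pow, hm]
    norm_cast
    simp only [nsmul_eq_mul]
    push_cast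
    ring

theorem nonneg_of_sq {α : LaurentSeries F} (h : α ≠ 0 → Even α.order)
    (h2 : 0 ≤ (2 : ℤ) + (α ^ 2).orderTop) : 0 ≤ α.order := by
  by_cases hα : α = 0
  · rw [hα]; simp
  · obtain ⟨m, hm⟩ := h hα
    rw [← HahnSeries.order_eq_orderTop_of_ne_zero (pow_ne_zero 2 hα), HahnSeries.order_pow, hm] at h2
    have h3 : (0 : ℤ) ≤ 2 + 2 • (m + m) := by exact_mod_cast h2
    rw [hm]
    simp only [nsmul_eq_mul] at h3
    push_cast at h3
    omega

theorem key {α₀ α₁ α₂ α₃ X S : LaurentSeries F} (h0 : α₀ ≠ 0 → Even α₀.order)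
    (h1 : α₁ ≠ 0 → Even α₁.order) (h2 : α₂ ≠ 0 → Even α₂.order) (h3 : α₃ ≠ 0 → Even α₃.order)
    (hX : X.order = 2) (hX0 : X ≠ 0) (hS : S.order = 0) (hS0 : S ≠ 0)
    (hsq : ∀ a b : F, a ^ 2 + b ^ 2 * S.coeff 0 = 0 → a = 0 ∧ b = 0)
    (h : 0 ≤ (α₀ ^ 2 + α₁ ^ 2 * X + α₂ ^ 2 * S + α₃ ^ 2 * (X * S)).order) :
    0 ≤ α₀.order ∧ 0 ≤ α₁.order ∧ 0 ≤ α₂.order ∧ 0 ≤ α₃.order := by
  rw [← HahnSeries.zero_le_orderTop_iff] at h
  set P := α₀ ^ 2 + α₂ ^ 2 * S with hP
  set Q := α₁ ^ 2 + α₃ ^ 2 * S with hQ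
  have e1 : α₀ ^ 2 + α₁ ^ 2 * X + α₂ ^ 2 * S + α₃ ^ 2 * (X * S) = P + X * Q := by
    rw [hP, hQ]; ring
  rw [e1] at h
  have oP : P.orderTop = min (α₀ ^ 2).orderTop (α₂ ^ 2).orderTop := min_case _ _ _ hS hS0 hsq
  have oQ : Q.orderTop = min (α₁ ^ 2).orderTop (α₃ ^ 2).orderTop := min_case _ _ _ hS hS0 hsq
  have tP : T4 P.orderTop := by rw [oP]; exact (T4_sq h0).min (T4_sq h2)
  have tQ : T4 Q.orderTop := by rw [oQ]; exact (T4_sq h1).min (T4_sq h3)
  have oXQ : (X * Q).orderTop = (2 : ℤ) + Q.orderTop := by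
    rw [HahnSeries.orderTop_mul, ← HahnSeries.order_eq_orderTop_of_ne_zero hX0, hX]
  have e2 : (P + X * Q).orderTop = min P.orderTop (X * Q).orderTop := by
    rcases lt_trichotomy P.orderTop (X * Q).orderTop with h' | h' | h'
    · rw [HahnSeries.orderTop_add_eq_left h', min_eq_left h'.le]
    · rcases tP with tP | ⟨m, tP⟩
      · have z1 : P = 0 := HahnSeries.orderTop_eq_top.1 tP
        have z2 : X * Q = 0 := HahnSeries.orderTop_eq_top.1 (by rw [← h', tP])
        rw [z1, z2]; simp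
      · rcases tQ with tQ | ⟨m', tQ⟩
        · exfalso
          rw [tP, oXQ, tQ, WithTop.add_top] at h'
          exact WithTop.coe_ne_top h'
        · exfalso
          rw [tP, oXQ, tQ] at h'
          have : (4 * m : ℤ) = 2 + 4 * m' := by exact_mod_cast h'
          omega
    · rw [HahnSeries.orderTop_add_eq_right h', min_eq_right h'.le]
  rw [e2] at h
  have g1 : (0 : WithTop ℤ) ≤ P.orderTop := h.trans (min_le_left _ _)
  have g2 : (0 : WithTop ℤ) ≤ (2 : ℤ) + Q.orderTop := by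
    rw [← oXQ]; exact h.trans (min_le_right _ _)
  rw [oP] at g1
  rw [oQ] at g2
  have two : ∀ g : WithTop ℤ, 0 ≤ g → 0 ≤ ((2 : ℤ) : WithTop ℤ) + g := fun g hg =>
    add_nonneg (by exact_mod_cast (show (0 : ℤ) ≤ 2 by norm_num)) hg
  refine ⟨?_, ?_, ?_, ?_⟩
  · exact nonneg_of_sq h0 (two _ (g1.trans (min_le_left _ _)))
  · exact nonneg_of_sq h1 (g2.trans (add_le_add_right (min_le_left _ _) _))
  · exact nonneg_of_sq h2 (two _ (g1.trans (min_le_right _ _)))
  · exact nonneg_of_sq h3 (g2.trans (add_le_add_right (min_le_right _ _) _))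

end general

end Pool.Agent.T9h80.WQ
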