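import Pool.Agent.T9h80.WQ.P6c

/-!
# The exceptional divisor (piece P6, part d)
-/

set_option autoImplicit false

namespace Pool.Agent.T9h80.WQ

open Pool.Agent.T9h29.WQ

universe u

variable {k : Type u} [Field k]

/-- the images of `x` and `y` -/
theorem Th_xy {σ : A k ≃ₐ[k] A k} {x y : A k} (h : Artin σ x y y (x ^ 4)) :
    ∃ x' y' : PowerSeries (FF k), Th k x = PowerSeries.X ^ 2 * x' ∧
      Th k y = PowerSeries.X ^ 4 * y' ∧ PowerSeries.constantCoeff x' = 1 ∧
      PowerSeries.constantCoeff y' = RatFunc.X ^ 2 := by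
  obtain ⟨hx, hy⟩ := J_xy h
  have dv : ∀ (m : ℕ) (f : A k), J m f → PowerSeries.X ^ m ∣ Th k f := by
    intro m f hf
    rw [PowerSeries.X_pow_dvd_iff]
    intro n hn
    rw [coeff_Th]
    have : po n f = 0 := by
      rw [po]
      refine Finset.sum_eq_zero fun j hj => ?_
      rw [Finset.mem_range] at hj
      rw [hf (dd n j) (by rw [dd_wt (by omega)]; exact hn), map_zero, zero_mul]
    rw [this, map_zero]
  obtain ⟨x', hx'⟩ := dv 2 x hx
  obtain ⟨y', hy'⟩ := dv 4 y hy
  have e1 : Th k x = PowerSeries.X ^ 2 * (1 + PowerSeries.X ^ 3 * y') := by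
    rw [h.hx, map_add, map_mul, map_pow, Th_X0, hy']; ring
  have e2 : Th k y = PowerSeries.X ^ 4 * (PowerSeries.C RatFunc.X ^ 2 +
      PowerSeries.X ^ 6 * (PowerSeries.C RatFunc.X * x' ^ 4)) := by
    rw [h.hy, map_add, map_mul, map_pow, map_pow, Th_X1, hx']; ring
  refine ⟨_, _, e1, e2, ?_, ?_⟩
  · simp
  · simp

section val

variable (σ : A k ≃ₐ[k] A k)

/-- the embedding of the invariants -/
noncomputable def psi : invariants σ →+* LaurentSeries (FF k) :=
  (HahnSeries.ofPowerSeries ℤ (FF k)).comp
    ((Th k : A k →+* PowerSeries (FF k)).comp (invariants σ).val.toRingHom)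

theorem psi_apply (b : invariants σ) :
    psi σ b = HahnSeries.ofPowerSeries ℤ (FF k) (Th k (b : A k)) := rfl

theorem psi_injective : Function.Injective (psi σ) := by
  intro a b h
  rw [psi_apply, psi_apply] at h
  exact Subtype.ext (Th_injective (HahnSeries.ofPowerSeries_injective h))

/-- the embedding of the field -/
noncomputable def phi : FractionRing (invariants σ) →+* LaurentSeries (FF k) :=
  IsFractionRing.lift (psi_injective σ)

theorem phi_alg (b : invariants σ) :
    phi σ (algebraMap (invariants σ) (FractionRing (invariants σ)) b) =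
      HahnSeries.ofPowerSeries ℤ (FF k) (Th k (b : A k)) := by
  rw [phi, IsFractionRing.lift_algebraMap, psi_apply]

theorem phi_ne {f : FractionRing (invariants σ)} (hf : f ≠ 0) : phi σ f ≠ 0 := by
  rwa [Ne, map_eq_zero]

/-- the valuation ring -/
noncomputable def RR : ValuationSubring (FractionRing (invariants σ)) where
  carrier := {f | 0 ≤ (phi σ f).order}
  mul_mem' := by
    intro f g hf hg
    by_cases h1 : f = 0
    · simp [h1]
    by_cases h2 : g = 0
    · simp [h2]
    rw [Set.mem_ofPred_eq, (phi σ).map_mul, HahnSeries.order_mul (phi_ne σ h1) (phi_ne σ h2)]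
    exact add_nonneg hf hg
  one_mem' := by simp
  add_mem' := by
    intro f g hf hg
    rw [Set.mem_ofPred_eq, (phi σ).map_add]
    by_cases h : phi σ f + phi σ g = 0
    · rw [h]; simp
    · exact (le_min hf hg).trans (HahnSeries.min_order_le_order_add h)
  zero_mem' := by simp
  neg_mem' := by
    intro f hf
    rw [Set.mem_ofPred_eq, (phi σ).map_neg, HahnSeries.order_neg]
    exact hf
  mem_or_inv_mem' := by
    intro f
    by_cases h : f = 0
    · left; simp [h]
    · have h1 : (phi σ f).order + (phi σ f⁻¹).order = 0 := by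
        rw [← HahnSeries.order_mul (phi_ne σ h) (phi_ne σ (inv_ne_zero h)), ← (phi σ).map_mul,
          mul_inv_cancel₀ h, (phi σ).map_one, HahnSeries.order_one]
      rw [Set.mem_ofPred_eq, Set.mem_ofPred_eq]
      omega

theorem mem_RR (f : FractionRing (invariants σ)) : f ∈ RR σ ↔ 0 ≤ (phi σ f).order := Iff.rfl

theorem order_inv {f : FractionRing (invariants σ)} (h : f ≠ 0) :
    (phi σ f⁻¹).order = - (phi σ f).order := by
  have h1 : (phi σ f).order + (phi σ f⁻¹).order = 0 := by
    rw [← HahnSeries.order_mul (phi_ne σ h) (phi_ne σ (inv_ne_zero h)), ← (phi σ).map_mul,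
      mul_inv_cancel₀ h, (phi σ).map_one, HahnSeries.order_one]
  omega

theorem mem_nonunits_RR (f : FractionRing (invariants σ)) :
    f ∈ (RR σ).nonunits ↔ f = 0 ∨ 0 < (phi σ f).order := by
  rw [ValuationSubring.mem_nonunits_iff_or]
  by_cases h : f = 0
  · simp [h]
  · rw [mem_RR, order_inv σ h]
    simp only [h, false_or]
    omega

variable {σ}

/-- orders are even -/
theorem even_order [CharP k 2] {x y : A k} (h : Artin σ x y y (x ^ 4))
    (f : FractionRing (invariants σ)) (hf : f ≠ 0) : Even (phi σ f).order := by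
  have h1 : ∀ b : invariants σ, b ≠ 0 →
      Even (phi σ (algebraMap (invariants σ) (FractionRing (invariants σ)) b)).order := by
    intro b hb
    rw [phi_alg]
    have hb' : (b : A k) ≠ 0 := fun h => hb (Subtype.ext h)
    obtain ⟨w, w1, w2, w3, w4⟩ := exists_wt hb'
    rw [(order_ofPS w3 w4).1]
    have := even_wt h (f := (b : A k)) b.2 w1 w2
    exact_mod_cast this
  obtain ⟨a, b, hb, rfl⟩ := IsFractionRing.div_surjective (A := invariants σ) f
  have hb0 : b ≠ 0 := nonZeroDivisors.ne_zero hb
  have ha0 : a ≠ 0 := by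
    rintro rfl
    simp at hf
  have ha1 : algebraMap (invariants σ) (FractionRing (invariants σ)) a ≠ 0 := by
    rwa [Ne, IsFractionRing.to_map_eq_zero_iff]
  have hb1 : algebraMap (invariants σ) (FractionRing (invariants σ)) b ≠ 0 := by
    rwa [Ne, IsFractionRing.to_map_eq_zero_iff]
  rw [div_eq_mul_inv, (phi σ).map_mul, HahnSeries.order_mul (phi_ne σ ha1) (phi_ne σ (inv_ne_zero hb1)),
    order_inv σ hb1]
  exact (h1 a ha0).add (h1 b hb0).neg

end val

end Pool.Agent.T9h80.WQ
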